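import Pool.Agent.Helper14.FO.Defs

/-!
# Expansion of independent sets in translation invariant graphs
-/

set_option autoImplicit false

namespace Pool.Agent.Helper14.FO

open Finset

theorem st_EXP : ST_EXP := by
  classical
  intro G _ _ _ R hTI p q hI L hL N hN
  obtain ⟨I0, hI0, hmax⟩ := Finset.exists_max_image (univ.filter (fun S : Finset G => Ind R S)) card
    ⟨∅, by simp [Ind]⟩
  rw [mem_filter] at hI0
  have hI0' := hI0.2
  set al := I0.card with hal
  -- each translate
  have hg : ∀ g : G, L.card ≤ ((I0.image (fun x => x + g)) ∩ (L ∪ N)).card := by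
    intro g
    have hcard : (I0.image (fun x => x + g)).card = al :=
      Finset.card_image_of_injective _ (add_left_injective g)
    have hind : Ind R (L ∪ ((I0.image (fun x => x + g)) \ (L ∪ N))) := by
      intro a ha b hb hab
      rw [mem_union] at ha hb
      rcases ha with ha | ha
      · rcases hb with hb | hb
        · exact hL a ha b hb hab
        · rw [mem_sdiff, mem_union] at hb
          exact hb.2 (Or.inr ((hN b).2 ⟨a, ha, hab⟩))
      · rcases hb with hb | hb
        · rw [mem_sdiff, mem_union] at ha
          exact ha.2 (Or.inr ((hN a).2 ⟨b, hb, hab.symm⟩))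
        · rw [mem_sdiff, mem_image] at ha hb
          obtain ⟨⟨a', ha', rfl⟩, -⟩ := ha
          obtain ⟨⟨b', hb', rfl⟩, -⟩ := hb
          exact hI0' a' ha' b' hb' ((hTI a' b' g).1 hab)
    have h1 := hmax _ (mem_filter.2 ⟨mem_univ _, hind⟩)
    have hdisj : Disjoint L ((I0.image (fun x => x + g)) \ (L ∪ N)) := by
      rw [Finset.disjoint_left]
      intro a ha hb
      rw [mem_sdiff, mem_union] at hb
      exact hb.2 (Or.inl ha)
    rw [card_union_of_disjoint hdisj] at h1
    have h2 := Finset.card_sdiff_add_card_inter (I0.image (fun x => x + g)) (L ∪ N)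
    omega
  -- sum over the translates
  have hsum : ∑ g : G, ((I0.image (fun x => x + g)) ∩ (L ∪ N)).card = al * (L ∪ N).card := by
    have h1 : ∀ g : G, ((I0.image (fun x => x + g)) ∩ (L ∪ N)).card =
        ∑ y ∈ L ∪ N, if y - g ∈ I0 then 1 else 0 := by
      intro g
      rw [Finset.sum_boole, Nat.cast_id]
      congr 1
      ext y
      rw [mem_inter, mem_image, mem_filter]
      constructor
      · rintro ⟨⟨x, hx, rfl⟩, hy⟩
        exact ⟨hy, by simpa using hx⟩
      · rintro ⟨hy, hx⟩
        exact ⟨⟨y - g, hx, by simp⟩, hy⟩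
    simp_rw [h1]
    rw [Finset.sum_comm]
    have h2 : ∀ y : G, (∑ g : G, if y - g ∈ I0 then 1 else 0) = al := by
      intro y
      rw [Finset.sum_boole, Nat.cast_id]
      refine Finset.card_bij (fun g _ => y - g) ?_ ?_ ?_
      · intro g hg
        exact (mem_filter.1 hg).2
      · intro a _ b _ hab
        exact sub_right_injective hab
      · intro b hb
        exact ⟨y - b, by simp [hb], by simp⟩
    simp_rw [h2]
    rw [Finset.sum_const, smul_eq_mul, mul_comm]
  have h3 : Fintype.card G * L.card ≤ al * (L ∪ N).card := by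
    rw [← hsum, ← Finset.card_univ, ← smul_eq_mul]
    exact Finset.card_nsmul_le_sum _ _ _ (fun g _ => hg g)
  have h4 : (L ∪ N).card ≤ L.card + N.card := card_union_le _ _
  have h5 : p * al ≤ q * Fintype.card G := hI I0 hI0'
  have h6 : 0 < Fintype.card G := Fintype.card_pos_iff.2 ⟨0⟩
  have h7 : Fintype.card G * (p * L.card) ≤ Fintype.card G * (q * (L.card + N.card)) := by
    calc Fintype.card G * (p * L.card) = p * (Fintype.card G * L.card) := by ring
      _ ≤ p * (al * (L ∪ N).card) := Nat.mul_le_mul_left _ h3
      _ = p * al * (L ∪ N).card := by ring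
      _ ≤ q * Fintype.card G * (L.card + N.card) := Nat.mul_le_mul h5 h4
      _ = Fintype.card G * (q * (L.card + N.card)) := by ring
  exact Nat.le_of_mul_le_mul_left h7 h6

end Pool.Agent.Helper14.FO
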