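import Pool.Agent.Helper14.FO.Defs

/-!
# Homomorphisms of circular cliques
-/

set_option autoImplicit false

namespace Pool.Agent.Helper14.FO

theorem khom_adj {p q : ℕ} [NeZero p] {a b : ZMod p} (h : b.val < a.val) :
    (KC p q).Adj a b ↔ q ≤ a.val - b.val ∧ q ≤ p - (a.val - b.val) := by
  have h1 : (a - b).val = a.val - b.val := ZMod.val_sub h.le
  have hne : a ≠ b := fun e => by rw [e] at h; exact lt_irrefl _ h
  have h2 : (b - a).val = p - (a.val - b.val) := by
    have h3 : b - a = -(a - b) := by ring
    rw [h3, ZMod.neg_val, if_neg (sub_ne_zero.2 hne), h1]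
  show (a ≠ b ∧ q ≤ (a - b).val ∧ q ≤ (b - a).val) ↔ _
  rw [h1, h2]
  exact ⟨fun h => h.2, fun h => ⟨hne, h⟩⟩

theorem st_KHOM : ST_KHOM := by
  intro p q p' q' _ _ hq hq' hpq
  have hp : 0 < p := Nat.pos_of_ne_zero (NeZero.ne p)
  have hp' : 0 < p' := Nat.pos_of_ne_zero (NeZero.ne p')
  have hval : ∀ a : ZMod p, (((a.val * p') / p : ℕ) : ZMod p').val = (a.val * p') / p := by
    intro a
    apply ZMod.val_cast_of_lt
    rw [Nat.div_lt_iff_lt_mul hp, mul_comm p' p]
    exact Nat.mul_lt_mul_of_pos_right (ZMod.val_lt a) hp'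
  have main : ∀ a b : ZMod p, b.val < a.val → (KC p q).Adj a b →
      (KC p' q').Adj (((a.val * p') / p : ℕ) : ZMod p') (((b.val * p') / p : ℕ) : ZMod p') := by
    intro a b hlt hab
    rw [khom_adj hlt] at hab
    obtain ⟨h1, h2⟩ := hab
    have ha : a.val < p := ZMod.val_lt a
    set x := a.val with hx
    set y := b.val with hy
    have e1 : y * p' / p + q' ≤ x * p' / p := by
      rw [← Nat.add_mul_div_right _ _ hp]
      apply Nat.div_le_div_right
      have : y + q ≤ x := by omega
      calc y * p' + q' * p = y * p' + p * q' := by ring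
        _ ≤ y * p' + p' * q := Nat.add_le_add_left hpq _
        _ = (y + q) * p' := by ring
        _ ≤ x * p' := Nat.mul_le_mul_right _ this
    have e2 : x * p' / p + q' ≤ y * p' / p + p' := by
      rw [← Nat.add_mul_div_right _ _ hp, ← Nat.add_mul_div_right _ _ hp]
      apply Nat.div_le_div_right
      have : x + q ≤ y + p := by omega
      calc x * p' + q' * p = x * p' + p * q' := by ring
        _ ≤ x * p' + p' * q := Nat.add_le_add_left hpq _
        _ = (x + q) * p' := by ring
        _ ≤ (y + p) * p' := Nat.mul_le_mul_right _ this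
        _ = y * p' + p' * p := by ring
    have va : (((x * p') / p : ℕ) : ZMod p').val = x * p' / p := hval a
    have vb : (((y * p') / p : ℕ) : ZMod p').val = y * p' / p := hval b
    have hlt' : (((y * p') / p : ℕ) : ZMod p').val < (((x * p') / p : ℕ) : ZMod p').val := by
      rw [va, vb]
      omega
    rw [khom_adj hlt', va, vb]
    constructor <;> omega
  refine ⟨fun a => (((a.val * p') / p : ℕ) : ZMod p'), fun a b hab => ?_⟩
  rcases lt_trichotomy a.val b.val with h | h | h
  · exact (main b a h hab.symm).symm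
  · exact absurd (ZMod.val_injective p h) hab.1
  · exact main a b h hab

end Pool.Agent.Helper14.FO
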